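import Pool.Agent.R836.RD.Main2

set_option autoImplicit false

/-!
# Parity patterns of the even-regular partition functions on all progressions (MP_a23355_nt)

Let `m = 2 ^ j * m₀`, `m₀` odd, `j ≥ 1`, `2 ^ j < m₀`, and let `b m n` be the number of the partitions
of `n` without parts divisible by `m`. For every `M ≥ 1` there is a constant `C` such that every linear
combination `∑_{i < K} c_i b m (n + i)` modulo 2, `c ≠ 0`, restricted to any class `n ≡ ρ (mod M)`, takes
both values in every interval `[A, C (A + K)]`. In particular (`K = 1`) `b m` is not constant modulo 2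
on any progression: both parities occur, infinitely often.

Method. `b m` modulo 2 is given by `f_(m₀) ^ (2 ^ j) / f_1`, that is `e(p ^ m₀) ^ (2 ^ j) / e(p)` with
`e = ∑ X ^ (k ^ 2)`, `(k, 6) = 1`, `e ^ 3 = D(X ^ 3)`. Over `kk(D(w ^ L))`, `kk` the algebraic closure of
`F_2`, the automorphisms of the algebraic closure of `kk((w))` permute, for every odd prime `ℓ`, the
`ℓ`-neighbours `D(x ^ ℓ)`, `D(y)`, `y ^ ℓ = x`, of `D(x)`, `x = c w ^ i` (power sums from the Hecke
operators on `F_2[D]`), with all parts of the exponents modulo `2 ^ κ`. There is one that maps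
`D(w ^ 3)` to `D(w ^ (3 M ^ 2))`, `L = 3 M`; it carries the linear relation between the values at the
`ζ ^ t w`, which expresses that a section vanishes, to a relation with a single term of smallest
order: `(2 ^ j / m₀ - 1) M ^ 2` (here `2 ^ j < m₀` is used). So no section vanishes. The patterns then
follow from the starting files (`Results/MP_a3366f_nt/EtaQuotients`).
-/

namespace Pool.Agent.Results.MP_a23355_nt.PatternsOnProgressions

open PowerSeries Pool.Agent.R836.RD

/-- the number of `m`-regular partitions of `n` -/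
def b (m n : ℕ) : ℕ :=
  ((Finset.univ : Finset (Nat.Partition n)).filter fun p => ∀ i ∈ p.parts, ¬ m ∣ i).card

theorem result (m j m₀ : ℕ) (hm : m = 2 ^ j * m₀) (hj : 1 ≤ j) (hm₀ : Odd m₀) (h : 2 ^ j < m₀)
    (M : ℕ) (hM : 0 < M) :
    ∃ C : ℕ, ∀ (K : ℕ) (c : ℕ → ZMod 2) (ρ : ℕ), (∃ i < K, c i ≠ 0) →
      ∀ (κ : ZMod 2) (A : ℕ), ∃ n, A ≤ n ∧ n ≤ C * (A + K) ∧ n ≡ ρ [MOD M] ∧
        ∑ i ∈ Finset.range K, c i * (b m (n + i) : ZMod 2) = κ := by
  have h0 : m₀ ≠ 0 := hm₀.pos.ne'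
  have hb : ∀ n, coeff n (Pg j m₀ h0) = (b m n : ZMod 2) := by
    intro n
    rw [hm]
    exact (partg j m₀ h0 n).symm
  obtain ⟨C, hC⟩ := pat1 (Pg j m₀ h0) (1 - 2 ^ j * m₀) (sec_Pg j m₀ h0) (by
    intro hd
    have h2 : (2 : ℤ) ∣ 1 - 2 ^ j * m₀ := dvd_trans (by norm_num) hd
    have h3 : (2 : ℤ) ∣ 2 ^ j * m₀ := Dvd.dvd.mul_right (dvd_pow_self 2 (by omega)) _
    have h4 := dvd_add h2 h3
    rw [sub_add_cancel] at h4
    norm_num at h4) M hM
  refine ⟨C, fun K c ρ h' κ A => ?_⟩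
  obtain ⟨i, hi, hci⟩ := h'
  obtain ⟨n, -, h1⟩ := full_Pg j m₀ h0 hj hm₀ h M (ρ + i) hM 0
  obtain ⟨n', h1', h2, h3, h4⟩ := hC K c ρ ⟨i, hi, hci, M * n + (ρ + i),
    (Nat.modEq_iff_dvd' (Nat.le_add_left _ _)).2 (by
      rw [Nat.add_sub_cancel]
      exact Dvd.intro _ rfl) |>.symm, by rw [h1]; exact one_ne_zero⟩ κ A
  refine ⟨n', h1', h2, h3, ?_⟩
  rw [← h4]
  refine Finset.sum_congr rfl fun i _ => ?_
  rw [hb]

end Pool.Agent.Results.MP_a23355_nt.PatternsOnProgressions
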