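import Pool.Agent.R978.PN.D

set_option autoImplicit false

/-!
# Parity of regular partition functions with randomly deleted parts (MP_a23355_nt)

Let `l ≥ 3`, let `R` be a random set of positive integers, the events `a ∈ R` being independent, and
suppose that `K √(log a / a) ≤ P (a ∈ R) ≤ 1 - K √(log a / a)` for every `K` and all large `a` not
divisible by `l`. Let `b n` be the number of `l`-regular partitions of `n` with no part in `R`. For every
strictly increasing sequence `s`, almost surely for every `L` every word of length `L` occurs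
with frequency `2 ^ (-L)` among the parities of `b (s k), …, b (s k + L - 1)`.

Method: as in `Pool.Agent.Results.MP_6d7a37_nt.RandomlyDeletedParts`; in the products over the `a` one
uses only the `a ∈ (u / 2, u]` for which neither `a` nor `u - a` is divisible by `l`. Among any three
consecutive integers there is such an `a`.
-/

namespace Pool.Agent.Results.MP_a23355_nt.RandomlyDeletedParts

open MeasureTheory ProbabilityTheory Filter Topology

/-- the number of partitions of `n` with no part divisible by `l` and no part in `R` -/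
noncomputable def regularAvoiding (l : ℕ) (R : Set ℕ) (n : ℕ) : ℕ :=
  Nat.card {p : Nat.Partition n // ∀ a ∈ p.parts, ¬ l ∣ a ∧ a ∉ R}

theorem result (l : ℕ) (hl : 3 ≤ l) {Ω : Type} [MeasurableSpace Ω] {P : Measure Ω}
    [IsProbabilityMeasure P]
    (R : Ω → Set ℕ) (hm : ∀ a : ℕ, MeasurableSet {ω | a ∈ R ω})
    (hi : iIndepSet (fun a : ℕ => {ω | a ∈ R ω}) P)
    (hR : ∀ K : ℝ, ∀ᶠ a : ℕ in atTop, ¬ l ∣ a → K * √(Real.log a / a) ≤ P.real {ω | a ∈ R ω} ∧
      P.real {ω | a ∈ R ω} ≤ 1 - K * √(Real.log a / a))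
    (s : ℕ → ℕ) (hs : StrictMono s) :
    ∀ᵐ ω ∂P, ∀ (L : ℕ) (w : Fin L → ZMod 2),
      Tendsto (fun x : ℕ => (((Finset.range x).filter fun k => ∀ i : Fin L,
        (regularAvoiding l (R ω) (s k + i) : ZMod 2) = w i).card : ℝ) / x)
        atTop (𝓝 ((1 / 2) ^ L)) := by
  have h5 : ∀ a : ℕ, a % l ≠ 0 % l ↔ ¬ l ∣ a := by
    intro a
    rw [Nat.zero_mod, Nat.dvd_iff_mod_eq_zero]
  have h1 := Pool.Agent.R978.PN.main l 0 hl R hm hi
    (fun K => (hR K).mono fun a ha hc => ha ((h5 a).1 hc)) hs
  have h2 : ∀ (Q : Set ℕ) (n : ℕ), Pool.Agent.R978.PN.pcl l 0 Q n = regularAvoiding l Q n := by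
    intro Q n
    unfold Pool.Agent.R978.PN.pcl regularAvoiding
    simp only [h5]
  simp only [h2] at h1
  filter_upwards [h1] with ω hω L w
  have h3 := hω 2 (by norm_num) L w
  rwa [Nat.cast_ofNat] at h3

end Pool.Agent.Results.MP_a23355_nt.RandomlyDeletedParts
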